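import Pool.Agent.Q50.BS.Main

set_option autoImplicit false

namespace Pool.Agent.Results.MP_4e5b66_nt.BaumSweetZeros

/-- The binary digits of `m` at the positions `i, …, i + l - 1` (position `0` is the last digit)
form a maximal block of zeros of length `l ≥ 1`: these digits are `0`, the digit at position
`i + l` is `1`, and either `i = 0` or the digit at position `i - 1` is `1`. -/
def IsZeroBlock (m i l : ℕ) : Prop :=
  0 < l ∧ (∀ t, i ≤ t → t < i + l → m.testBit t = false) ∧ m.testBit (i + l) = true ∧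
    (i = 0 ∨ m.testBit (i - 1) = true)

open Classical in
/-- The Baum-Sweet sequence: `b 0 = 1`, and for `m ≥ 1`, `b m = 1` if every maximal block of
consecutive zeros in the binary expansion of `m` has even length, and `b m = 0` otherwise. -/
noncomputable def b (m : ℕ) : ℕ :=
  if m = 0 then 1 else if ∀ i l, IsZeroBlock m i l → Even l then 1 else 0

/-- The `k`-kernel of an integer sequence: the subsequences `n ↦ a (k^e n + j)`, `e ≥ 0`,
`0 ≤ j < k^e`. -/
def kernel (k : ℕ) (a : ℕ → ℤ) : Set (ℕ → ℤ) :=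
  {v | ∃ e j : ℕ, j < k ^ e ∧ v = fun n => a (k ^ e * n + j)}

/-- `a` is `k`-regular: the `ℤ`-module spanned by its `k`-kernel is finitely generated. -/
def IsRegular (k : ℕ) (a : ℕ → ℤ) : Prop := (Submodule.span ℤ (kernel k a)).FG

theorem b_eq (m : ℕ) : b m = Pool.Agent.Q50.BS.b 2 m := by
  have h : (∀ i l, IsZeroBlock m i l → Even l) ↔
      (∀ i l, Pool.Agent.Q50.BS.IsZeroBlock m i l → 2 ∣ l) := by
    refine forall_congr' fun i => forall_congr' fun l => ?_
    exact imp_congr Iff.rfl even_iff_two_dvd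
  unfold b Pool.Agent.Q50.BS.b
  by_cases h0 : m = 0
  · rw [if_pos h0, if_pos h0]
  · rw [if_neg h0, if_neg h0]
    by_cases h1 : ∀ i l, IsZeroBlock m i l → Even l
    · rw [if_pos h1, if_pos (h.1 h1)]
    · rw [if_neg h1, if_neg (fun h2 => h1 (h.2 h2))]

/-- The strictly increasing enumeration `h` of the zeros of the Baum-Sweet sequence (it exists
and is unique) is not `k`-regular for any `k ≥ 2`. -/
theorem result :
    (∃! h : ℕ → ℕ, StrictMono h ∧ Set.range h = {m | b m = 0}) ∧
    ∀ h : ℕ → ℕ, StrictMono h → Set.range h = {m | b m = 0} →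
      ∀ k : ℕ, 2 ≤ k → ¬ IsRegular k (fun n => (h n : ℤ)) := by
  refine ⟨?_, ?_⟩
  · have hinf : {m | b m = 0}.Infinite := by
      apply Set.infinite_of_injective_forall_mem (f := fun n : ℕ => 4 * n + 2)
      · intro x y hxy
        simp only at hxy
        omega
      · intro n
        show b (4 * n + 2) = 0
        rw [b_eq]
        exact Pool.Agent.Q50.BS.b_mod_four le_rfl (by omega)
    refine ⟨Nat.nth (fun m => b m = 0), ⟨Nat.nth_strictMono hinf, ?_⟩, ?_⟩
    · exact Nat.range_nth_of_infinite hinf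
    · rintro g ⟨hg1, hg2⟩
      refine (StrictMono.range_inj hg1 (Nat.nth_strictMono hinf)).1 ?_
      rw [hg2]
      exact (Nat.range_nth_of_infinite hinf).symm
  · intro h hmono hrange k hk
    have hr : Set.range h = {m | Pool.Agent.Q50.BS.b 2 m = 0} := by
      rw [hrange]
      ext m
      show b m = 0 ↔ Pool.Agent.Q50.BS.b 2 m = 0
      rw [b_eq]
    exact Pool.Agent.Q50.BS.main 2 le_rfl h hmono hr k hk

end Pool.Agent.Results.MP_4e5b66_nt.BaumSweetZeros
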